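import Pool.Agent.H860V.Aut

/-!
# Two further classes of quadratic systems
-/

set_option autoImplicit false
set_option linter.unusedSectionVars false

namespace Pool.Agent.H860V.T

open Function Pool.Agent.H860Q

variable {B Λ M : Type} [DecidableEq B] [DecidableEq Λ] [Monoid M]

/-- no variable occurs with both orientations -/
def K2 (S : Sys B Λ) : Prop := ∃ s : Λ → Bool, ∀ b x, oc S b (x, s x) = 0

/-- every variable occurs at most once on each side -/
def K3 (S : Sys B Λ) : Prop := ∀ b, ∀ l : Λ × Bool, oc S b l + oc S b (fl l) ≤ 1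

theorem orient {s : Λ → Bool} {l : Λ × Bool} (h : l ≠ (l.1, s l.1)) : fl l = (l.1, s l.1) := by
  refine Prod.ext rfl ?_
  by_contra h2
  apply h
  refine Prod.ext rfl ?_
  show l.2 = s l.1
  have h3 : (!l.2) ≠ s l.1 := h2
  revert h3
  cases l.2 <;> cases s l.1 <;> simp

theorem step_K2 {S S' : Sys B Λ} {b : Bool} {l : Λ × Bool} {y : Sy B Λ}
    (h : SStep S S' b l y) (hk : K2 S) : K2 S' := by
  obtain ⟨s, hk⟩ := hk
  obtain ⟨R, R', h1, h2, h3, h4, h5⟩ := h
  have hl : l ≠ (l.1, s l.1) := by
    intro e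
    have := hk b l.1
    rw [← e, oc, h1, occ_cons, if_pos rfl] at this
    omega
  have hfl := orient hl
  have hy : ∀ x, y ≠ Sum.inr (x, s x) := by
    intro x e
    have := hk (!b) x
    rw [oc, h2, occ_cons, if_pos e] at this
    omega
  have key : ∀ (T : List (Sy B Λ)), (∀ x, occ (Sum.inr (x, s x)) T = 0) → ∀ x,
      occ (Sum.inr (x, s x)) (subL l y T) = 0 := by
    intro T hT x
    rw [occ_subL, hT x, if_neg (hy x), hfl, hT l.1]
    simp
  have hR : ∀ x, occ (Sum.inr (x, s x)) R = 0 := by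
    intro x
    have := hk b x
    rw [oc, h1, occ_cons] at this
    omega
  have hR' : ∀ x, occ (Sum.inr (x, s x)) R' = 0 := by
    intro x
    have := hk (!b) x
    rw [oc, h2, occ_cons] at this
    omega
  refine ⟨s, ?_⟩
  intro b' x
  have hb : b' = b ∨ b' = !b := by cases b' <;> cases b <;> simp
  rcases hb with rfl | rfl
  · rw [oc, h4, occ_cons, key R hR x]
    have : (Sum.inr l : Sy B Λ) ≠ Sum.inr (x, s x) := by
      intro e
      have e' := Sum.inr_injective e
      apply hl
      rw [e']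
    rw [if_neg this]
  · rw [oc, h5, key R' hR' x]

theorem step_K3 {S S' : Sys B Λ} {b : Bool} {l : Λ × Bool} {y : Sy B Λ}
    (h : SStep S S' b l y) (hk : K3 S) : K3 S' := by
  obtain ⟨R, R', h1, h2, h3, h4, h5⟩ := h
  obtain ⟨n1, n2⟩ := not_isV h3
  have hl := hk b l
  have hl' := hk (!b) l
  simp only [oc, h1, h2, occ_cons, n1, n2, if_false, inr_ne_fl, if_true] at hl hl'
  intro b' z
  have hb : b' = b ∨ b' = !b := by cases b' <;> cases b <;> simp
  rcases hb with rfl | rfl
  · have hz := hk b' z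
    simp only [oc, h1, h4, occ_cons, occ_subL, fl_fl] at hz ⊢
    have e1 : occ (Sum.inr l) R = 0 := by omega
    have e2 : occ (Sum.inr (fl l)) R = 0 := by omega
    rw [e1, e2]
    simp only [ite_self, add_zero]
    exact hz
  · have hz := hk (!b) z
    simp only [oc, h2, h5, occ_cons, occ_subL, fl_fl] at hz ⊢
    by_cases c1 : y = Sum.inr z
    · simp only [c1, if_true, inr_ne_fl, if_false] at hz ⊢
      omega
    · by_cases c2 : y = Sum.inr (fl z)
      · have c5 : (Sum.inr (fl z) : Sy B Λ) ≠ Sum.inr z := by rw [← c2]; exact c1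
        simp only [c2, c5, if_true, if_false] at hz ⊢
        omega
      · simp only [c1, c2, if_false] at hz ⊢
        omega

theorem K2.of_le {S S' : Sys B Λ} (h : K2 S) (hle : ∀ b l, oc S' b l ≤ oc S b l) : K2 S' := by
  obtain ⟨s, h⟩ := h
  exact ⟨s, fun b x => Nat.le_zero.1 ((hle b _).trans (h b x).le)⟩

theorem K3.of_le {S S' : Sys B Λ} (h : K3 S) (hle : ∀ b l, oc S' b l ≤ oc S b l) : K3 S' :=
  fun b l => (Nat.add_le_add (hle b l) (hle b (fl l))).trans (h b l)

end Pool.Agent.H860V.T
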