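import Pool.Agent.H860T.Path

/-!
# Long solutions can be pumped
-/

set_option autoImplicit false
set_option linter.unusedSectionVars false
set_option linter.unusedVariables false

namespace Pool.Agent.H860V.T

open Function Pool.Agent.H860Q

variable {B Λ M : Type} [DecidableEq B] [DecidableEq Λ] [Monoid M]

/-- A loop of substitution steps can be pumped. -/
theorem loop_pump [Finite M] (φ : IMor B M) (p : ℕ) (hp : 0 < p) (st : ℕ → St B Λ)
    (hst : ∀ k, k < p → ∃ b x y, SStep (st k).S (st (k + 1)).S b x y ∧
      (st k).v = gr x y (st (k + 1)).v ∧ evs (st (k + 1)).v y ≠ [] ∧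
      len (st (k + 1)).S = len (st k).S)
    (hS : (st p).S = (st 0).S) (hφ : ∀ z, φ.f ((st p).v z) = φ.f ((st 0).v z))
    (hsol : Solves (st p).v (st p).S)
    (hty : (∀ k, K2 (st k).S) ∨ (∀ k, K3 (st k).S)) :
    ∃ D : Set Λ, (∀ x ∈ D, ∃ k, k < p ∧ ∃ b, ∃ l : Λ × Bool, l.1 = x ∧ Sum.inr l ∈ (st k).S b) ∧
      PumpAt φ (st 0).S (fun z => φ.f ((st 0).v z)) D := by
  obtain ⟨_, x0, _⟩ := hst 0 hp
  have hne1 : Nonempty (Λ × Bool) := ⟨x0⟩
  have hne2 : Nonempty (Sy B Λ) := ⟨Sum.inr x0⟩
  choose! b x y h1 h2 h3 h4 using hst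
  -- forward index of growth step n
  let K : ℕ → ℕ := fun n => p - 1 - n % p
  have hK : ∀ n, K n < p := fun n => by simp only [K]; omega
  let X : ℕ → Λ × Bool := fun n => x (K n)
  let Y : ℕ → Sy B Λ := fun n => y (K n)
  let V : ℕ → Λ → Wd B := fun n => Nat.rec (st p).v (fun n v => gr (X n) (Y n) v) n
  have hV : ∀ n, V (n + 1) = gr (X n) (Y n) (V n) := fun n => rfl
  have hKp : ∀ n, K (n + p) = K n := fun n => by simp [K]
  have hSsucc : ∀ n, (st (K (n + 1) + 1)).S = (st (K n)).S := by
    intro n
    have hlt := Nat.mod_lt n hp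
    rcases Nat.lt_or_ge (n % p + 1) p with h | h
    · have : (n + 1) % p = n % p + 1 := by
        rw [← Nat.mod_add_mod, Nat.mod_eq_of_lt h]
      have : K (n + 1) + 1 = K n := by simp only [K, this]; omega
      rw [this]
    · have e1 : n % p = p - 1 := by omega
      have : (n + 1) % p = 0 := by
        rw [← Nat.mod_add_mod, e1, Nat.sub_add_cancel hp, Nat.mod_self]
      have e2 : K (n + 1) + 1 = p := by simp only [K, this]; omega
      have e3 : K n = 0 := by simp only [K, e1]; omega
      rw [e2, e3, hS]
  have hK0 : K 0 + 1 = p := by simp only [K, Nat.zero_mod]; omega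
  have hVlow : ∀ n, n ≤ p → V n = (st (p - n)).v := by
    intro n
    induction n with
    | zero => intro _; rfl
    | succ n ih =>
      intro hn
      rw [hV, ih (by omega)]
      have : K n = p - (n + 1) := by
        simp only [K, Nat.mod_eq_of_lt (show n < p by omega)]; omega
      have e := h2 (p - (n + 1)) (by omega)
      simp only [X, Y, this]
      rw [e, show p - (n + 1) + 1 = p - n by omega]
  have hper : ∀ n z, φ.f (V (n + p) z) = φ.f (V n z) := by
    intro n
    induction n with
    | zero =>
      intro z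
      rw [Nat.zero_add, hVlow p le_rfl, Nat.sub_self]
      exact (hφ z).symm
    | succ n ih =>
      intro z
      rw [show n + 1 + p = (n + p) + 1 by ring, hV, hV]
      have e1 : X (n + p) = X n := by simp only [X, hKp]
      have e2 : Y (n + p) = Y n := by simp only [Y, hKp]
      rw [e1, e2]
      exact gr_phi φ _ _ ih z
  have hmono : ∀ n m z, n ≤ m → vl (V n) z <:+: vl (V m) z := by
    intro n m z h
    induction h with
    | refl => exact List.infix_rfl
    | step _ ih => exact ih.trans (inner_gr _ _ _ _)
  have hYne : ∀ n, evs (V n) (Y n) ≠ [] := by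
    intro n
    have hlt := Nat.mod_lt n hp
    have e1 : K n + 1 = p - n % p := by simp only [K]; omega
    have h5 := h3 (K n) (hK n)
    rw [e1, ← hVlow (n % p) hlt.le] at h5
    show evs (V n) (y (K n)) ≠ []
    rcases hy : y (K n) with a | w
    · simp
    · rw [hy, evs_inr] at h5
      rw [evs_inr]
      have := hmono (n % p) n w (Nat.mod_le _ _)
      intro h0
      rw [h0] at this
      exact h5 (List.infix_nil.1 this)
  let G : Gr φ Λ :=
    { S := fun n => (st (K n + 1)).S
      X := X
      Y := Y
      B' := fun n => b (K n)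
      V := V
      p := p
      hp := hp
      step := fun n => by
        show SStep (st (K (n + 1) + 1)).S (st (K n + 1)).S (b (K n)) (x (K n)) (y (K n))
        rw [hSsucc]; exact h1 (K n) (hK n)
      hV := hV
      perS := fun n => by simp only [hKp]
      perX := fun n => by simp only [X, hKp]
      perY := fun n => by simp only [Y, hKp]
      perV := hper
      sol := by
        show Solves (st p).v (st (K 0 + 1)).S
        rw [hK0]; exact hsol
      hlen := fun n => by
        show len (st (K (n + 1) + 1)).S = len (st (K n + 1)).S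
        rw [hSsucc]; exact (h4 (K n) (hK n)).symm
      hY := hYne }
  have hG : (∀ n, K2 (G.S n)) ∨ (∀ n, K3 (G.S n)) :=
    hty.imp (fun h n => h (K n + 1)) (fun h n => h (K n + 1))
  obtain ⟨i, this⟩ := pump G hG
  refine ⟨{(G.X i).1}, ?_, ?_⟩
  · rintro _ rfl
    obtain ⟨R, R', e1, -⟩ := h1 (K i) (hK i)
    exact ⟨K i, hK i, b (K i), G.X i, rfl, by rw [e1]; exact List.mem_cons_self⟩
  · have e1 : G.S 0 = (st 0).S := by
      show (st (K 0 + 1)).S = _
      rw [hK0, hS]
    have e2 : (fun z => φ.f (G.V 0 z)) = fun z => φ.f ((st 0).v z) := by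
      funext z; exact hφ z
    rw [e1, e2] at this
    exact this

theorem Fw_k2 {s s' : St B Λ} (h : Fw s s') (hk : K2 s.S) : K2 s'.S := by
  cases h with
  | drop S S' v D s h1 h2 =>
    refine hk.of_le (fun b l => ?_)
    cases b
    · show occ _ (S' false) ≤ occ _ (S false)
      rw [h2, occ_cons]; omega
    · show occ _ (S' true) ≤ occ _ (S true)
      rw [h1, occ_cons]; omega
  | erase S v D l b R h hv => exact hk.of_le (fun b k => occ_era_le _ _ _)
  | sub S S' v D b l y r h hy hv => exact step_K2 h hk

theorem Fw_k3 {s s' : St B Λ} (h : Fw s s') (hk : K3 s.S) : K3 s'.S := by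
  cases h with
  | drop S S' v D s h1 h2 =>
    refine hk.of_le (fun b l => ?_)
    cases b
    · show occ _ (S' false) ≤ occ _ (S false)
      rw [h2, occ_cons]; omega
    · show occ _ (S' true) ≤ occ _ (S true)
      rw [h1, occ_cons]; omega
  | erase S v D l b R h hv => exact hk.of_le (fun b k => occ_era_le _ _ _)
  | sub S S' v D b l y r h hy hv => exact step_K3 h hk

variable [Fintype Λ]

/-- If there are arbitrarily long solutions of the given type then there are solutions of
arbitrarily large exponent. -/
theorem core [Finite B] [Finite M] (φ : IMor B M) (S0 : Sys B Λ) (hq : ∀ z, cnt S0 z ≤ 2)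
    (hty0 : K2 S0 ∨ K3 S0) (m0 : Λ → M)
    (h : ∀ K : ℕ, ∃ v : Λ → Wd B, Solves v S0 ∧ (∀ z, φ.f (v z) = m0 z) ∧
      (∀ z, FreeGroup.IsReduced (v z)) ∧ K ≤ ∑ z, (v z).length) :
    PumpAt φ S0 m0 Set.univ := by
  classical
  -- the finite set of states
  let T := {w : List (Sy B Λ) // w.length ≤ len S0} × {w : List (Sy B Λ) // w.length ≤ len S0} ×
    (Λ → M) × Set Λ
  have hfin : Finite {w : List (Sy B Λ) // w.length ≤ len S0} :=
    (List.finite_length_le (Sy B Λ) (len S0)).to_subtype
  have : Finite T := inferInstance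
  have := Fintype.ofFinite T
  set N := Fintype.card T with hN
  obtain ⟨v0, hv0, hm0, hred0, hB⟩ := h (2 ^ (N + 1) * (Fintype.card Λ * Nat.card M + 1))
  have hm0' : m0 = fun z => φ.f (v0 z) := by funext z; rw [hm0]
  rw [hm0']
  -- the path
  let nx : {s : St B Λ // ValidT s} → {s : St B Λ // ValidT s} := fun s =>
    if ht : Term s.1 then s else
      ⟨(exists_fw s.1 s.2 ht).choose, Fw_valid (exists_fw s.1 s.2 ht).choose_spec s.2⟩
  have hnx : ∀ s, ¬ Term s.1 → Fw s.1 (nx s).1 := by
    intro s hs
    simp only [nx, hs, dif_neg, not_false_eq_true]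
    exact (exists_fw s.1 s.2 hs).choose_spec
  let s0 : {s : St B Λ // ValidT s} := ⟨⟨S0, v0, Set.univ⟩,
    { sol := hv0, q := hq, ty := hty0, al := fun _ _ _ => Set.mem_univ _
      dead := fun z hz => absurd (Set.mem_univ z) hz, red := hred0 }⟩
  let pt : ℕ → {s : St B Λ // ValidT s} := fun n => nx^[n] s0
  have hpt : ∀ n, pt (n + 1) = nx (pt n) := fun n => iterate_succ_apply' nx n s0
  have htyp : (∀ n, K2 (pt n).1.S) ∨ (∀ n, K3 (pt n).1.S) := by
    have hstay : ∀ n, (pt (n + 1)) = pt n ∨ Fw (pt n).1 (pt (n + 1)).1 := by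
      intro n
      by_cases hn : Term (pt n).1
      · left; rw [hpt]; simp only [nx, hn, dif_pos]
      · right; rw [hpt]; exact hnx _ hn
    refine hty0.imp (fun h n => ?_) (fun h n => ?_)
    · induction n with
      | zero => exact h
      | succ n ih =>
        rcases hstay n with e | e
        · rw [e]; exact ih
        · exact Fw_k2 e ih
    · induction n with
      | zero => exact h
      | succ n ih =>
        rcases hstay n with e | e
        · rw [e]; exact ih
        · exact Fw_k3 e ih
  have hex : ∃ n, Term (pt n).1 := by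
    by_contra hcon
    push Not at hcon
    have : ∀ n, size (pt n).1 + len (pt n).1.S + n ≤ size (pt 0).1 + len (pt 0).1.S := by
      intro n
      induction n with
      | zero => simp
      | succ n ih =>
        have := Fw_meas (hnx (pt n) (hcon n)) (pt n).2
        rw [← hpt] at this
        omega
    have := this (size (pt 0).1 + len (pt 0).1.S + 1)
    omega
  set L := Nat.find hex with hL
  have hterm : Term (pt L).1 := Nat.find_spec hex
  have hfw : ∀ k, k < L → Fw (pt k).1 (pt (k + 1)).1 := by
    intro k hk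
    rw [hpt]
    exact hnx _ (Nat.find_min hex hk)
  have hlenle : ∀ k, k ≤ L → len (pt k).1.S ≤ len S0 := by
    intro k
    induction k with
    | zero => intro _; exact le_rfl
    | succ k ih => intro hk; exact (Fw_len_le (hfw k (by omega)) (pt k).2).trans (ih (by omega))
  have hup : ∀ i, i ≤ L → PumpAt φ (pt i).1.S (fun z => φ.f ((pt i).1.v z)) (pt i).1.D →
      PumpAt φ S0 (fun z => φ.f (v0 z)) Set.univ := by
    intro i hi hp
    exact fw_iter_up (fun k => (pt k).1) i (fun k hk => hfw k (by omega)) hp
  rcases Nat.lt_or_ge N L with hNL | hNL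
  · -- a repeated state
    let code : Fin (L + 1) → T := fun k =>
      (⟨(pt k).1.S true, by
          have := hlenle k (by omega); unfold len at this ⊢; omega⟩,
        ⟨(pt k).1.S false, by
          have := hlenle k (by omega); unfold len at this ⊢; omega⟩,
        fun z => φ.f ((pt k).1.v z), (pt k).1.D)
    obtain ⟨i, j, hne, he⟩ := Fintype.exists_ne_map_eq_of_card_lt code (by
      rw [Fintype.card_fin, ← hN]; omega)
    obtain ⟨i, j, hij, he⟩ : ∃ i j : Fin (L + 1), i < j ∧ code i = code j := by
      rcases lt_or_gt_of_ne hne with h1 | h1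
      · exact ⟨i, j, h1, he⟩
      · exact ⟨j, i, h1, he.symm⟩
    have hij' : (i : ℕ) < j := hij
    have hjL : (j : ℕ) ≤ L := by have := j.2; omega
    have eT : (pt i).1.S true = (pt j).1.S true := congrArg (fun t : T => t.1.1) he
    have eF : (pt i).1.S false = (pt j).1.S false := congrArg (fun t : T => t.2.1.1) he
    have eφ : (fun z => φ.f ((pt i).1.v z)) = (fun z => φ.f ((pt j).1.v z)) :=
      congrArg (fun t : T => t.2.2.1) he
    have eS : (pt i).1.S = (pt j).1.S := by
      funext b; cases b
      · exact eF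
      · exact eT
    have hlenmono : ∀ k, (i : ℕ) ≤ k → k ≤ j → len (pt j).1.S ≤ len (pt k).1.S ∧
        len (pt k).1.S ≤ len (pt i).1.S := by
      intro k hk1 hk2
      constructor
      · have : ∀ m, k + m ≤ j → len (pt (k + m)).1.S ≤ len (pt k).1.S := by
          intro m
          induction m with
          | zero => intro _; exact le_rfl
          | succ m ih =>
            intro hm
            exact (Fw_len_le (hfw (k + m) (by omega)) (pt (k + m)).2).trans (ih (by omega))
        have := this (j - k) (by omega)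
        rwa [show k + (j - k) = (j : ℕ) by omega] at this
      · have : ∀ m, (i : ℕ) + m ≤ j → len (pt (i + m)).1.S ≤ len (pt i).1.S := by
          intro m
          induction m with
          | zero => intro _; exact le_rfl
          | succ m ih =>
            intro hm
            exact (Fw_len_le (hfw (i + m) (by omega)) (pt (i + m)).2).trans (ih (by omega))
        have := this (k - i) (by omega)
        rwa [show (i : ℕ) + (k - i) = k by omega] at this
    have hleneq : ∀ k, (i : ℕ) ≤ k → k ≤ j → len (pt k).1.S = len (pt i).1.S := by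
      intro k h1 h2
      have := hlenmono k h1 h2
      rw [eS] at this ⊢
      omega
    have hstep : ∀ k, k < (j : ℕ) - i → (pt (i + k + 1)).1.D = (pt (i + k)).1.D ∧
        ∃ b x y, SStep (pt (i + k)).1.S (pt (i + k + 1)).1.S b x y ∧
        (pt (i + k)).1.v = gr x y (pt (i + k + 1)).1.v ∧ evs (pt (i + k + 1)).1.v y ≠ [] := by
      intro k hk
      apply (hfw (i + k) (by omega)).of_len_eq
      rw [hleneq (i + k + 1) (by omega) (by omega), hleneq (i + k) (by omega) (by omega)]
    have hDk : ∀ k, k ≤ (j : ℕ) - i → (pt (i + k)).1.D = (pt i).1.D := by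
      intro k
      induction k with
      | zero => intro _; rfl
      | succ k ih => intro hk; exact (hstep k (by omega)).1.trans (ih (by omega))
    obtain ⟨D, hD, hpump⟩ := loop_pump φ ((j : ℕ) - i) (by omega) (fun k => (pt (i + k)).1)
      (by
        intro k hk
        obtain ⟨-, b, x, y, e1, e2, e3⟩ := hstep k hk
        refine ⟨b, x, y, e1, e2, e3, ?_⟩
        show len (pt (i + (k + 1))).1.S = len (pt (i + k)).1.S
        rw [hleneq (i + (k + 1)) (by omega) (by omega), hleneq (i + k) (by omega) (by omega)])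
      (by
        show (pt (i + (j - i))).1.S = (pt (i + 0)).1.S
        rw [show (i : ℕ) + (j - i) = j by omega, add_zero]; exact eS.symm)
      (by
        intro z
        show φ.f ((pt (i + (j - i))).1.v z) = φ.f ((pt (i + 0)).1.v z)
        rw [show (i : ℕ) + (j - i) = j by omega, add_zero]
        exact (congrFun eφ z).symm)
      (pt (i + (j - i))).2.sol (htyp.imp (fun h k => h _) (fun h k => h _))
    refine hup i (by omega) (PumpAt.mono ?_ hpump)
    intro x hx
    obtain ⟨k, hk, b, l, hl, hb⟩ := hD x hx
    have := (pt (i + k)).2.al b l hb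
    rw [hDk k (by omega), hl] at this
    exact this
  · -- the bottom value is long
    have hsz : ∀ k, k ≤ L → size (pt 0).1 + 1 ≤ 2 ^ k * (size (pt k).1 + 1) := by
      intro k
      induction k with
      | zero => intro _; simp
      | succ k ih =>
        intro hk
        have h1 := ih (by omega)
        have h2 := (hfw k (by omega)).size_le
        calc size (pt 0).1 + 1 ≤ 2 ^ k * (size (pt k).1 + 1) := h1
          _ ≤ 2 ^ k * (2 * (size (pt (k + 1)).1 + 1)) := Nat.mul_le_mul_left _ (by omega)
          _ = 2 ^ (k + 1) * (size (pt (k + 1)).1 + 1) := by ring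
    have hbig : Fintype.card Λ * Nat.card M < size (pt L).1 := by
      by_contra hcon
      push Not at hcon
      have h1 := hsz L le_rfl
      have h2 : size (pt 0).1 = ∑ z, (v0 z).length := rfl
      have h3 : 2 ^ L * (size (pt L).1 + 1) ≤ 2 ^ N * (Fintype.card Λ * Nat.card M + 1) :=
        Nat.mul_le_mul (Nat.pow_le_pow_right (by norm_num) hNL) (by omega)
      have h4 : 2 ^ (N + 1) * (Fintype.card Λ * Nat.card M + 1) =
          2 * (2 ^ N * (Fintype.card Λ * Nat.card M + 1)) := by ring
      have h5 : 0 < 2 ^ N * (Fintype.card Λ * Nat.card M + 1) := by positivity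
      omega
    obtain ⟨z, hz⟩ : ∃ z, Nat.card M < ((pt L).1.v z).length := by
      by_contra hcon
      push Not at hcon
      have : size (pt L).1 ≤ ∑ _z : Λ, Nat.card M := Finset.sum_le_sum fun z _ => hcon z
      rw [Finset.sum_const, Finset.card_univ, smul_eq_mul] at this
      omega
    obtain ⟨x, y, w, hw, hy, hk⟩ := pump_word φ.toMor _ hz
    refine hup L le_rfl ?_
    intro κ
    refine ⟨update (pt L).1.v z (x ++ pw y κ ++ w), ?_, ?_, z, ?_, y, hy, ?_⟩
    · simp only [Solves, hterm.1, hterm.2, ev_nil]
    · intro z'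
      by_cases hzz : z' = z
      · subst hzz; rw [update_self, hk]
      · rw [update_of_ne hzz]
    · by_contra hD
      have := (pt L).2.dead z hD
      rw [this] at hz
      simp at hz
    · rw [update_self]; exact ⟨x, w, rfl⟩



/-- If a system of one of the two classes has infinitely many reduced solutions of types in `Acc`,
then it has solutions of types in `Acc` of arbitrarily large exponent. -/
theorem pump_of_infinite [Finite B] [Finite M] (φ : IMor B M) (S0 : Sys B Λ)
    (hq : ∀ z, cnt S0 z ≤ 2) (hty : K2 S0 ∨ K3 S0) (Acc : Set (Λ → M))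
    (h : {v : Λ → Wd B | Solves v S0 ∧ (∀ z, FreeGroup.IsReduced (v z)) ∧
      (fun z => φ.f (v z)) ∈ Acc}.Infinite) (κ : ℕ) :
    ∃ v : Λ → Wd B, Solves v S0 ∧ (fun z => φ.f (v z)) ∈ Acc ∧
      ∃ x, ∃ c, c ≠ [] ∧ pw c κ <:+: v x := by
  have h1 : ∃ m0 ∈ Acc, {v : Λ → Wd B | Solves v S0 ∧ (∀ z, FreeGroup.IsReduced (v z)) ∧
      (fun z => φ.f (v z)) = m0}.Infinite := by
    by_contra hcon
    push Not at hcon
    apply h
    have : {v : Λ → Wd B | Solves v S0 ∧ (∀ z, FreeGroup.IsReduced (v z)) ∧
        (fun z => φ.f (v z)) ∈ Acc} =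
        ⋃ m0 ∈ Acc, {v : Λ → Wd B | Solves v S0 ∧ (∀ z, FreeGroup.IsReduced (v z)) ∧
          (fun z => φ.f (v z)) = m0} := by
      ext v
      simp only [Set.mem_iUnion]
      constructor
      · rintro ⟨a, a', b⟩; exact ⟨_, b, a, a', rfl⟩
      · rintro ⟨m0, b, a, a', rfl⟩; exact ⟨a, a', b⟩
    rw [this]
    exact Set.Finite.biUnion (Set.toFinite _) (fun m hm => hcon m hm)
  obtain ⟨m0, hm0, hinf⟩ := h1
  obtain ⟨v, e1, e2, x, -, c, hc, hx⟩ := core φ S0 hq hty m0 (fun K => by
    obtain ⟨v, hv, hK⟩ := unbounded_of_infinite _ hinf K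
    exact ⟨v, hv.1, fun z => congrFun hv.2.2 z, hv.2.1, hK⟩) κ
  exact ⟨v, e1, by rw [show (fun z => φ.f (v z)) = m0 from funext e2]; exact hm0, x, c, hc, hx⟩

end Pool.Agent.H860V.T
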