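import Pool.Agent.H860T.Pump

/-!
# Paths for the two further classes
-/

set_option autoImplicit false
set_option linter.unusedSectionVars false

namespace Pool.Agent.H860V.T

open Function Pool.Agent.H860Q

variable {B Λ M : Type} [DecidableEq B] [DecidableEq Λ] [Monoid M]

theorem red_iw {w : Wd B} (h : FreeGroup.IsReduced w) : FreeGroup.IsReduced (iw w) := by
  have h1 : (FreeGroup.mk w).toWord = w := by
    rw [FreeGroup.toWord_mk, FreeGroup.isReduced_iff_reduce_eq.1 h]
  have h2 : iw w = ((FreeGroup.mk w)⁻¹).toWord := by rw [FreeGroup.toWord_inv, h1]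
  rw [h2]; exact FreeGroup.isReduced_toWord

theorem red_vl {v : Λ → Wd B} (h : ∀ z, FreeGroup.IsReduced (v z)) (l : Λ × Bool) :
    FreeGroup.IsReduced (vl v l) := by
  obtain ⟨x, e⟩ := l
  cases e
  · exact red_iw (h x)
  · exact h x

theorem nil_of_iw {w : Wd B} (h : FreeGroup.IsReduced w) (hw : iw w = w) : w = [] := by
  have h1 : (FreeGroup.mk w)⁻¹ = FreeGroup.mk w := by
    rw [FreeGroup.inv_mk]
    exact congrArg FreeGroup.mk hw
  have h2 : (FreeGroup.mk w) ^ 2 = 1 := by
    rw [pow_two]
    nth_rewrite 1 [← h1]
    exact inv_mul_cancel _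
  have h3 : FreeGroup.mk w = 1 := by
    have := pow_left_injective (M := FreeGroup B) (n := 2) (by norm_num)
    apply this
    simpa using h2
  have := FreeGroup.reduce.sound (h3.trans FreeGroup.one_eq_mk)
  rw [FreeGroup.isReduced_iff_reduce_eq.1 h] at this
  exact this

/-- validity of a state -/
structure ValidT (s : St B Λ) : Prop where
  sol : Solves s.v s.S
  q : ∀ z, cnt s.S z ≤ 2
  ty : K2 s.S ∨ K3 s.S
  al : ∀ b (l : Λ × Bool), Sum.inr l ∈ s.S b → l.1 ∈ s.D
  dead : ∀ z, z ∉ s.D → s.v z = []
  red : ∀ z, FreeGroup.IsReduced (s.v z)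

theorem Fw_valid {s s' : St B Λ} (h : Fw s s') (hs : ValidT s) : ValidT s' := by
  cases h with
  | drop S S' v D s h1 h2 =>
    obtain ⟨a, b, ty, c, d, hr⟩ := hs
    have hle : ∀ b l, oc S' b l ≤ oc S b l := by
      intro b l
      cases b
      · show occ _ (S' false) ≤ occ _ (S false)
        rw [h2, occ_cons]; omega
      · show occ _ (S' true) ≤ occ _ (S true)
        rw [h1, occ_cons]; omega
    refine ⟨?_, cnt_of_le b hle, ty.imp (fun h => h.of_le hle) (fun h => h.of_le hle), ?_, d, hr⟩
    · have := a
      simp only [Solves, h1, h2, ev_cons] at this ⊢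
      exact List.append_cancel_left this
    · intro b z hz
      cases b
      · exact c false z (by show _ ∈ S false; rw [h2]; exact List.mem_cons_of_mem _ hz)
      · exact c true z (by show _ ∈ S true; rw [h1]; exact List.mem_cons_of_mem _ hz)
  | erase S v D l b R h hv =>
    obtain ⟨a, q, ty, c, d, hr⟩ := hs
    have hu : update v l.1 [] = v := by rw [← hv]; exact update_eq_self _ _
    have hle : ∀ b k, oc (fun b => era l.1 (S b)) b k ≤ oc S b k := fun b k => occ_era_le _ _ _
    refine ⟨?_, cnt_of_le q hle, ty.imp (fun h => h.of_le hle) (fun h => h.of_le hle), ?_, ?_, hr⟩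
    · have := a
      simp only [Solves] at this ⊢
      rw [← ev_era, ← ev_era, hu]; exact this
    · intro b z hz
      have hz' := List.mem_filter.1 hz
      refine ⟨c b z hz'.1, ?_⟩
      intro hzl
      have h1 := hz'.2
      simp only [decide_eq_true_eq] at h1
      exact h1 ((isV_inr _ _).2 hzl)
    · intro z hz
      by_cases hzx : z = l.1
      · rw [hzx]; exact hv
      · exact d z (fun hd => hz ⟨hd, hzx⟩)
  | sub S S' v D b l y r h hy hv =>
    obtain ⟨a, q, ty, c, d, hr⟩ := hs
    have hh := h
    obtain ⟨R, R', h1, h2, h3, h4, h5⟩ := h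
    have hx : l.1 ∈ D := c b l (by show _ ∈ S b; rw [h1]; exact List.mem_cons_self)
    refine ⟨?_, hh.cnt_le q, ty.imp (fun h => step_K2 hh h) (fun h => step_K3 hh h), ?_, ?_, ?_⟩
    · rw [← hh.solves, gr_upd v l y r h3 hv]; exact a
    · have hyD : ∀ z, y = Sum.inr z → z.1 ∈ D := fun z hz => c (!b) z (by
        show _ ∈ S (!b); rw [h2, ← hz]; exact List.mem_cons_self)
      intro b' z hz
      have hz : Sum.inr z ∈ S' b' := hz
      show z.1 ∈ D
      have key : ∀ (T : List (Sy B Λ)) (c' : Bool), (∀ s ∈ T, s ∈ S c') → Sum.inr z ∈ subL l y T →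
          z.1 ∈ D := by
        intro T c' hT hm
        rcases mem_subL hm with hm | hm | hm
        · exact hyD z hm
        · exact hyD (fl z) hm
        · exact c c' z (hT _ hm)
      have hb : b' = b ∨ b' = !b := by cases b' <;> cases b <;> simp
      rcases hb with rfl | rfl
      · rw [h4] at hz
        rcases List.mem_cons.1 hz with hz | hz
        · rw [Sum.inr_injective hz]; exact hx
        · exact key R b' (fun s hs => by rw [h1]; exact List.mem_cons_of_mem _ hs) hz
      · rw [h5] at hz
        exact key R' (!b) (fun s hs => by rw [h2]; exact List.mem_cons_of_mem _ hs) hz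
    · intro z hz
      have : z ≠ l.1 := fun e => hz (by rw [e]; exact hx)
      show upd v l r z = []
      unfold upd
      rw [update_of_ne this]; exact d z hz
    · have h6 : FreeGroup.IsReduced r := by
        have := red_vl hr l
        rw [hv] at this
        exact List.IsChain.right_of_append this
      intro z
      show FreeGroup.IsReduced (upd v l r z)
      unfold upd
      by_cases hz : z = l.1
      · subst hz
        rw [update_self]
        split_ifs
        · exact h6
        · exact red_iw h6
      · rw [update_of_ne hz]; exact hr z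

theorem Fw_len_le {s s' : St B Λ} (h : Fw s s') (hs : ValidT s) : len s'.S ≤ len s.S := by
  cases h with
  | drop S S' v D s h1 h2 => simp [len, h1, h2]; omega
  | erase S v D x b R h hv => exact Nat.add_le_add (length_era_le _ _) (length_era_le _ _)
  | sub S S' v D b x y r h hy hv => exact h.len_le hs.q

variable [Fintype Λ]

theorem Fw_meas {s s' : St B Λ} (h : Fw s s') (hs : ValidT s) :
    size s' + len s'.S < size s + len s.S := by
  cases h with
  | drop S S' v D s h1 h2 => simp [len, h1, h2, size]; omega
  | erase S v D l b R h hv =>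
    have h1 : (era l.1 (S b)).length < (S b).length := by rw [h]; exact length_era_lt _ _
    have h2 := length_era_le l.1 (S (!b))
    rw [len_eq _ b, len_eq _ b]
    simp only [size]
    omega
  | sub S S' v D b l y r h hy hv =>
    have h1 := h.len_le hs.q
    have h2 := size_upd v l r
    have h3 := List.length_pos_iff.2 hy
    rw [hv, List.length_append] at h2
    simp only [size]
    omega

/-- the heads of a valid state with nonempty values -/
theorem heads_ne {S : Sys B Λ} {v : Λ → Wd B} (ty : K2 S ∨ K3 S)
    (hr : ∀ z, FreeGroup.IsReduced (v z)) {x y : Λ × Bool} {R R' : List (Sy B Λ)}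
    (h1 : S true = Sum.inr x :: R) (h2 : S false = Sum.inr y :: R')
    (hsol : Solves v S) (hx : vl v x ≠ []) (hne : x ≠ y) : y.1 ≠ x.1 := by
  intro h
  rcases eq_or_fl h with h | h
  · exact hne h.symm
  · subst h
    unfold Solves at hsol
    rw [h1, h2, ev_cons, ev_cons, evs_inr, evs_inr] at hsol
    have h3 := (List.append_inj hsol (by rw [vl_length, vl_length]; rfl)).1
    rw [vl_fl] at h3
    exact hx (nil_of_iw (red_vl hr x) h3.symm)

theorem exists_fw (s : St B Λ) (hs : ValidT s) (ht : ¬ Term s) : ∃ s', Fw s s' := by
  obtain ⟨S, v, D⟩ := s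
  have hsol : ev v (S true) = ev v (S false) := hs.sol
  have mk : ∀ (b : Bool) (l : Λ × Bool) (y : Sy B Λ) (R R' : List (Sy B Λ)),
      S b = Sum.inr l :: R →
      S (!b) = y :: R' → ¬ isV l.1 y → evs v y ≠ [] → (evs v y).length ≤ (vl v l).length →
      ∃ s', Fw ⟨S, v, D⟩ s' := by
    intro b l y R R' h1 h2 h3 h4 h5
    have hsol' := (solves_iff v S b).1 hsol
    rw [h1, h2, ev_cons, ev_cons, evs_inr] at hsol'
    obtain ⟨r, hr⟩ : evs v y <+: vl v l := by
      refine List.prefix_of_prefix_length_le (l₃ := vl v l ++ ev v R) ?_ ?_ h5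
      · rw [hsol']; exact List.prefix_append _ _
      · exact List.prefix_append _ _
    refine ⟨_, Fw.sub S (fun c => if c = b then Sum.inr l :: subL l y R else subL l y R') v D b l y r
      ⟨R, R', h1, h2, h3, by simp, by simp⟩ h4 hr.symm⟩
  have hc : ∀ (l : Λ × Bool) (a : B × Bool), ¬ isV l.1 (Sum.inl a : Sy B Λ) := by
    intro l a h
    rcases h with h | h <;> simp at h
  rcases hT : S true with _ | ⟨s, R⟩
  · rcases hF : S false with _ | ⟨t, R'⟩
    · exact absurd ⟨hT, hF⟩ ht
    · rw [hT, hF, ev_nil, ev_cons] at hsol
      have h0 := (List.append_eq_nil_iff.1 hsol.symm).1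
      rcases t with a | x
      · simp at h0
      · exact ⟨_, Fw.erase S v D x false R' hF (vl_nil h0)⟩
  · rcases hF : S false with _ | ⟨t, R'⟩
    · rw [hT, hF, ev_nil, ev_cons] at hsol
      have h0 := (List.append_eq_nil_iff.1 hsol).1
      rcases s with a | x
      · simp at h0
      · exact ⟨_, Fw.erase S v D x true R hT (vl_nil h0)⟩
    · by_cases hst : s = t
      · subst hst
        exact ⟨_, Fw.drop S (fun b => if b then R else R') v D s (by simp [hT]) (by simp [hF])⟩
      · by_cases hs0 : evs v s = []
        · rcases s with a | x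
          · simp at hs0
          · exact ⟨_, Fw.erase S v D x true R hT (vl_nil hs0)⟩
        by_cases ht0 : evs v t = []
        · rcases t with a | x
          · simp at ht0
          · exact ⟨_, Fw.erase S v D x false R' hF (vl_nil ht0)⟩
        have l1 := List.length_pos_iff.2 hs0
        have l2 := List.length_pos_iff.2 ht0
        rcases s with a | x
        · rcases t with b | y
          · rw [hT, hF, ev_cons, ev_cons] at hsol
            simp at hsol
            exact absurd (by rw [hsol.1]) hst
          · refine mk false y (Sum.inl a) R' R hF hT (hc _ _) hs0 ?_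
            simp only [evs_inl, evs_inr, List.length_singleton] at l2 ⊢
            exact l2
        · rcases t with b | y
          · refine mk true x (Sum.inl b) R R' hT hF (hc _ _) ht0 ?_
            simp only [evs_inl, evs_inr, List.length_singleton] at l1 ⊢
            exact l1
          · have hne : x ≠ y := fun e => hst (by rw [e])
            have hv := heads_ne hs.ty hs.red hT hF hs.sol hs0 hne
            rcases le_total (vl v y).length (vl v x).length with h | h
            · exact mk true x (Sum.inr y) R R' hT hF (by rw [isV_inr]; exact hv) ht0 h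
            · exact mk false y (Sum.inr x) R' R hF hT (by rw [isV_inr]; exact hv.symm) hs0 h

end Pool.Agent.H860V.T
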