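import Pool.Agent.H860T.Base

/-!
# Pumping for the two further classes
-/

set_option autoImplicit false
set_option linter.unusedSectionVars false

namespace Pool.Agent.H860V.T

open Function Pool.Agent.H860Q

variable {B Λ M : Type} [DecidableEq B] [DecidableEq Λ] [Monoid M]

variable {φ : IMor B M} (G : Gr φ Λ)

theorem coherent (hm : ∃ n, G.X (n + 1) ≠ G.X n)
    (hty : (∀ n, K2 (G.S n)) ∨ (∀ n, K3 (G.S n))) :
    ∃ n i, ∃ l : Λ × Bool, (l = G.X i ∨ l = fl (G.X i)) ∧
      ∀ b, oc (G.S n) b l = 1 ∧ oc (G.S n) b (fl l) = 0 := by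
  obtain ⟨n, hne⟩ := hm
  obtain ⟨hB, hYn, hvar⟩ := G.chg n hne
  obtain ⟨R, R', h1, h2, h3, h4, h5⟩ := G.step n
  obtain ⟨T, T', g1, g2, g3, g4, g5⟩ := G.step (n + 1)
  have c1 := SStep.len_eq' h1 h2 h4 h5
  rw [G.hlen n] at c1
  have c2 := SStep.len_eq' g1 g2 g4 g5
  rw [G.hlen (n + 1)] at c2
  obtain ⟨m1, m2⟩ := not_isV g3
  rw [hB, Bool.not_not] at g5
  rw [hB] at g4
  rw [hYn] at h2 h4 h5
  set a := G.X (n + 1) with ha
  set b := G.X n with hb
  have q1 : (Sum.inr b : Sy B Λ) ≠ Sum.inr a := fun e => hvar (by rw [Sum.inr_injective e])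
  have q2 : (Sum.inr b : Sy B Λ) ≠ Sum.inr (fl a) :=
    fun e => hvar (by rw [Sum.inr_injective e]; rfl)
  have q3 : (Sum.inr a : Sy B Λ) ≠ Sum.inr (fl b) :=
    fun e => hvar (by rw [Sum.inr_injective e]; rfl)
  have q4 : (Sum.inr a : Sy B Λ) ≠ Sum.inr (fl a) := inr_ne_fl a
  have q5 : (Sum.inr b : Sy B Λ) ≠ Sum.inr (fl b) := inr_ne_fl b
  -- counts of `a`
  have e1 : oc (G.S (n + 1)) (!G.B' n) a = occ (Sum.inr a) T + 1 := by
    simp only [oc, g4, occ_cons, occ_subL, m1, m2, if_false, if_true]
  have e2 : oc (G.S (n + 1)) (!G.B' n) (fl a) = occ (Sum.inr (fl a)) T := by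
    simp only [oc, g4, occ_cons, occ_subL, m1, m2, q4, if_false, fl_fl]; omega
  have e3 : oc (G.S (n + 1)) (G.B' n) a = occ (Sum.inr a) T' := by
    simp only [oc, g5, occ_subL, m1, m2, if_false]; omega
  have e4 : oc (G.S (n + 1)) (G.B' n) (fl a) = occ (Sum.inr (fl a)) T' := by
    simp only [oc, g5, occ_subL, m1, m2, if_false, fl_fl]; omega
  have f1 : oc (G.S (n + 1)) (!G.B' n) a = occ (Sum.inr a) R' + 1 := by
    simp only [oc, h2, occ_cons, if_true]
  have f2 : oc (G.S (n + 1)) (!G.B' n) (fl a) = occ (Sum.inr (fl a)) R' := by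
    simp only [oc, h2, occ_cons, q4, if_false]; omega
  have f3 : oc (G.S (n + 1)) (G.B' n) a = occ (Sum.inr a) R := by
    simp only [oc, h1, occ_cons, q1, if_false]; omega
  have f4 : oc (G.S (n + 1)) (G.B' n) (fl a) = occ (Sum.inr (fl a)) R := by
    simp only [oc, h1, occ_cons, q2, if_false]; omega
  -- counts of `b` at level `n + 1`
  have k1 : oc (G.S (n + 1)) (G.B' n) b = occ (Sum.inr b) R + 1 := by
    simp only [oc, h1, occ_cons, if_true]
  have k2 : oc (G.S (n + 1)) (G.B' n) (fl b) = occ (Sum.inr (fl b)) R := by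
    simp only [oc, h1, occ_cons, q5, if_false]; omega
  have k3 : oc (G.S (n + 1)) (!G.B' n) b = occ (Sum.inr b) R' := by
    simp only [oc, h2, occ_cons, q1.symm, if_false]; omega
  have k4 : oc (G.S (n + 1)) (!G.B' n) (fl b) = occ (Sum.inr (fl b)) R' := by
    simp only [oc, h2, occ_cons, q3, if_false]; omega
  -- counts of `a` at level `n`
  have j1 : oc (G.S n) (G.B' n) a = occ (Sum.inr a) R + occ (Sum.inr b) R := by
    simp only [oc, h4, occ_cons, occ_subL, q1, q4, if_false, if_true]; omega
  have j2 : oc (G.S n) (!G.B' n) a = occ (Sum.inr a) R' + occ (Sum.inr b) R' := by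
    simp only [oc, h5, occ_subL, q4, if_false, if_true]; omega
  have j3 : oc (G.S n) (G.B' n) (fl a) = occ (Sum.inr (fl a)) R + occ (Sum.inr (fl b)) R := by
    simp only [oc, h4, occ_cons, occ_subL, q2, q4, if_false, if_true, fl_fl]; omega
  have j4 : oc (G.S n) (!G.B' n) (fl a) = occ (Sum.inr (fl a)) R' + occ (Sum.inr (fl b)) R' := by
    simp only [oc, h5, occ_subL, q4, if_false, if_true, fl_fl]; omega
  have key : ∀ (m : ℕ) (z : Λ × Bool), oc (G.S m) (G.B' n) z = 1 → oc (G.S m) (!G.B' n) z = 1 →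
      oc (G.S m) (G.B' n) (fl z) = 0 → oc (G.S m) (!G.B' n) (fl z) = 0 →
      ∀ s, oc (G.S m) s z = 1 ∧ oc (G.S m) s (fl z) = 0 := by
    intro m z w1 w2 w3 w4 s
    have : s = G.B' n ∨ s = !G.B' n := by cases s <;> cases G.B' n <;> simp
    rcases this with rfl | rfl
    · exact ⟨w1, w3⟩
    · exact ⟨w2, w4⟩
  by_cases hA : occ (Sum.inr a) R = 1
  · exact ⟨n + 1, n + 1, a, Or.inl rfl, key (n + 1) a (by omega) (by omega) (by omega) (by omega)⟩
  by_cases hB' : occ (Sum.inr b) R' = 1
  · exact ⟨n + 1, n, b, Or.inl rfl, key (n + 1) b (by omega) (by omega) (by omega) (by omega)⟩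
  rcases hty with hty | hty
  · obtain ⟨s, hs⟩ := hty (n + 1)
    have ha2 : fl a = (a.1, s a.1) := orient (by
      intro e
      have := hs (!G.B' n) a.1
      rw [← e] at this
      omega)
    have hb2 : fl b = (b.1, s b.1) := orient (by
      intro e
      have := hs (G.B' n) b.1
      rw [← e] at this
      omega)
    have t1 := hs (!G.B' n) a.1
    have t2 := hs (G.B' n) a.1
    have t3 := hs (!G.B' n) b.1
    have t4 := hs (G.B' n) b.1
    rw [← ha2] at t1 t2
    rw [← hb2] at t3 t4
    exact ⟨n, n + 1, a, Or.inl rfl, key n a (by omega) (by omega) (by omega) (by omega)⟩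
  · have t1 := hty (n + 1) (!G.B' n) a
    have t2 := hty (n + 1) (G.B' n) b
    refine ⟨n, n + 1, fl a, Or.inr rfl, key n (fl a) (by omega) (by omega) ?_ ?_⟩
    · rw [fl_fl]; omega
    · rw [fl_fl]; omega

theorem multi [Finite M] (hm : ∃ n, G.X (n + 1) ≠ G.X n)
    (hty : (∀ n, K2 (G.S n)) ∨ (∀ n, K3 (G.S n))) :
    ∃ i, PumpAt φ (G.S 0) (fun z => φ.f (G.V 0 z)) {(G.X i).1} := by
  obtain ⟨n0, i, l, hl, hcount⟩ := coherent G hm hty
  refine ⟨i, ?_⟩
  have hl1 : l.1 = (G.X i).1 := by rcases hl with rfl | rfl <;> rfl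
  rw [← hl1]
  obtain ⟨L1, R1, e1, a1, a2⟩ := split_occ l _ (hcount true).1 (hcount true).2
  obtain ⟨L2, R2, e2, a3, a4⟩ := split_occ l _ (hcount false).1 (hcount false).2
  -- the main case: goodness at both occurrences
  have main : ∀ k, (∀ L R, G.base (n0 + k * G.p) = L ++ G.W (n0 + k * G.p) l ++ R →
      LJ G.e (φ.f (L ++ G.W (n0 + k * G.p) l))) → LJ (φ.f (G.W (n0 + k * G.p) l)) G.e →
      Nat.card M < (G.W (n0 + k * G.p) l).length →
      PumpAt φ (G.S 0) (fun z => φ.f (G.V 0 z)) {l.1} := by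
    intro k hgood hle hlong
    set n := n0 + k * G.p with hn
    have hS : G.S n = G.S n0 := G.perS' _ _
    have e1' := e1
    have e2' := e2
    rw [← hS] at e1' e2'
    refine G.up0 n _ ?_
    have b1 := hgood (ev (G.V n) L1) (ev (G.V n) R1) (by
      rw [← G.base_eq n true, e1']; simp)
    have b2 := hgood (ev (G.V n) L2) (ev (G.V n) R2) (by
      rw [← G.base_eq n false, e2']; simp)
    rcases le_total (ev (G.V n) L1).length (ev (G.V n) L2).length with h | h
    · exact twist φ _ _ l true L1 R1 L2 R2 e1' e2' a1 a2 a3 a4 G.e (G.solves n) h b2 hle hlong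
    · exact twist φ _ _ l false L2 R2 L1 R1 e2' e1' a3 a4 a1 a2 G.e (G.solves n) h b1 hle hlong
  obtain ⟨N2, hN2⟩ := G.long i (Nat.card M + 1)
  have hlen : ∀ n, (G.W n l).length = (G.W n (G.X i)).length := by
    intro n
    rw [vl_length, vl_length, hl1]
  rcases hl with hl | hl
  · obtain ⟨N1, hN1⟩ := G.occ_good hm i
    have g1 : N1 + N2 ≤ n0 + (N1 + N2) * G.p := G.le_mul _ _
    apply main (N1 + N2)
    · rw [hl]; exact hN1 _ (by omega)
    · rw [hl]; exact G.le_e _ _
    · rw [hlen]
      have := hN2 (n0 + (N1 + N2) * G.p) (by omega)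
      omega
  · by_cases hE : ∃ k, (G.base 0).length ≤ (ev (G.V (n0 + k * G.p)) R1).length ∨
        (G.base 0).length ≤ (ev (G.V (n0 + k * G.p)) R2).length
    · -- both orientations have the same J-class
      have hee : LJ G.e (φ.tau G.e) := by
        obtain ⟨k, hk⟩ := hE
        set n := n0 + k * G.p with hn
        have hS : G.S n = G.S n0 := G.perS' _ _
        have e1' := e1
        have e2' := e2
        rw [← hS] at e1' e2'
        obtain ⟨Z, E, h1, h2, h3⟩ := G.good_start n
        have aux : ∀ L R : Wd B, G.base n = L ++ G.W n l ++ R → (G.base 0).length ≤ R.length →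
            LJ G.e (φ.tau G.e) := by
          intro L R hb hR
          obtain ⟨ρ, hρ⟩ : L ++ G.W n l <+: Z := by
            refine List.prefix_of_prefix_length_le (l₃ := G.base n) ?_ ?_ ?_
            · rw [hb]; exact List.prefix_append _ _
            · rw [h1]; exact List.prefix_append _ _
            · have h5 := congrArg List.length hb
              rw [h1] at h5
              simp only [List.length_append] at h5 ⊢
              omega
          rw [← hρ, φ.mul, φ.mul] at h3
          refine (h3.trans (LJ.mul_right _ _)).trans ((LJ.mul_left _ _).trans ?_)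
          rw [hl, Gr.W, vl_fl, φ.f_iw]
          exact LJ_tau φ (G.le_e _ _)
        rcases hk with hk | hk
        · exact aux (ev (G.V n) L1) (ev (G.V n) R1) (by
            rw [← G.base_eq n true, e1']; simp) hk
        · exact aux (ev (G.V n) L2) (ev (G.V n) R2) (by
            rw [← G.base_eq n false, e2']; simp) hk
      have hee' : LJ (φ.tau G.e) G.e := by
        have := LJ_tau φ hee
        rwa [G.tau_tau] at this
      obtain ⟨N1, hN1⟩ := G.occ_good_fl hm i hee hee'
      have g1 : N1 + N2 ≤ n0 + (N1 + N2) * G.p := G.le_mul _ _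
      apply main (N1 + N2)
      · rw [hl]; exact hN1 _ (by omega)
      · rw [hl, Gr.W, vl_fl, φ.f_iw]; exact (LJ_tau φ (G.le_e _ _)).trans hee'
      · rw [hlen]
        have := hN2 (n0 + (N1 + N2) * G.p) (by omega)
        omega
    · -- the period is short
      push Not at hE
      intro κ
      obtain ⟨N3, hN3⟩ := G.long i (κ * (G.base 0).length + 1)
      have g1 : N2 + N3 ≤ n0 + (N2 + N3) * G.p := G.le_mul _ _
      have hk := hE (N2 + N3)
      set n := n0 + (N2 + N3) * G.p with hn
      have hS : G.S n = G.S n0 := G.perS' _ _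
      have e1' := e1
      have e2' := e2
      rw [← hS] at e1' e2'
      have hlW : κ * (G.base 0).length + 1 ≤ (G.W n l).length := by
        rw [hlen]; exact hN3 n (by omega)
      have hlM : Nat.card M < (G.W n l).length := by
        rw [hlen]
        have := hN2 n (by omega)
        omega
      have b1 : G.base n = ev (G.V n) L1 ++ (G.W n l ++ ev (G.V n) R1) := by
        rw [← G.base_eq n true, e1']; simp
      have b2 : G.base n = ev (G.V n) L2 ++ (G.W n l ++ ev (G.V n) R2) := by
        rw [← G.base_eq n false, e2']; simp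
      have short : ∀ A1 E1 A2 E2 : Wd B, G.base n = A1 ++ (G.W n l ++ E1) →
          G.base n = A2 ++ (G.W n l ++ E2) → A1.length < A2.length →
          E1.length < (G.base 0).length → ∃ c, c ≠ [] ∧ pw c κ <:+: G.V n l.1 := by
        intro A1 E1 A2 E2 b1 b2 hlt hE1
        obtain ⟨c, hc⟩ : A1 <+: A2 := by
          refine List.prefix_of_prefix_length_le (l₃ := G.base n) ?_ ?_ hlt.le
          · rw [b1]; exact List.prefix_append _ _
          · rw [b2]; exact List.prefix_append _ _
        have hc0 : c ≠ [] := by rintro rfl; rw [List.append_nil] at hc; rw [hc] at hlt; omega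
        have h6 : G.W n l ++ E1 = c ++ (G.W n l ++ E2) := by
          have := b1.symm.trans b2
          rw [← hc, List.append_assoc] at this
          exact List.append_cancel_left this
        have h7 : G.W n l <+: c ++ G.W n l := by
          refine List.prefix_of_prefix_length_le (l₃ := G.W n l ++ E1) ?_ ?_ (by simp)
          · exact List.prefix_append _ _
          · rw [h6, ← List.append_assoc]; exact List.prefix_append _ _
        have h8 : c.length ≤ (G.base 0).length := by
          have := congrArg List.length h6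
          simp only [List.length_append] at this
          omega
        have h9 := pw_start c _ κ h7 (by
          have := Nat.mul_le_mul_left κ h8
          omega)
        exact vl_pw hc0 h9.isInfix
      rcases Nat.lt_trichotomy (ev (G.V n) L1).length (ev (G.V n) L2).length with h | h | h
      · obtain ⟨c, hc, hcc⟩ := short _ _ _ _ b1 b2 h hk.1
        exact G.up0K n {l.1} κ ⟨G.V n, G.solves n, fun _ => rfl, l.1, rfl, c, hc, hcc⟩
      · have h10 := b1.symm.trans b2
        obtain ⟨h11, h12⟩ := List.append_inj h10 h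
        exact G.up0 n {l.1} (free_pump φ _ _ l true L1 R1 L2 R2 e1' e2' a1 a2 a3 a4 h11
          (List.append_cancel_left h12) hlM) κ
      · obtain ⟨c, hc, hcc⟩ := short _ _ _ _ b2 b1 h hk.2
        exact G.up0K n {l.1} κ ⟨G.V n, G.solves n, fun _ => rfl, l.1, rfl, c, hc, hcc⟩


theorem pump [Finite M] (hty : (∀ n, K2 (G.S n)) ∨ (∀ n, K3 (G.S n))) :
    ∃ i, PumpAt φ (G.S 0) (fun z => φ.f (G.V 0 z)) {(G.X i).1} := by
  by_cases h : ∃ n, G.X (n + 1) ≠ G.X n
  · exact multi G h hty
  · push Not at h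
    exact ⟨0, G.single h⟩

end Pool.Agent.H860V.T
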